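import Pool.Agent.Lib.MP_02170e_nt.Inj58
import Pool.Agent.Lib.MP_02170e_nt.Low53
import Pool.Agent.Lib.MP_02170e_nt.Lin23
import Pool.Agent.Lib.MP_02170e_nt.GM38

/-!
# The dichotomy for the dynamically affine polynomials

`M f R n` is the largest degree of an irreducible factor of `f (R^(n))` over the finite field `F`.
If an iterate of the polynomial `R` is semiconjugate over the algebraic closure to an affine map of
the additive group, then `M f R n` is of order `n` (first alternative of the question); if it is
semiconjugate to a power map of the multiplicative group, then `log (M f R n)` is at least of order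
`n` (second alternative).  Here `f` is any polynomial with a root that is not `R`-critical.
-/

set_option autoImplicit false

open Polynomial

namespace Pool.Agent.Results.MP_02170e_nt.DynamicallyAffine

section
variable {F : Type} [Field F]

/-- `M_{f,R}(n)`: the largest degree of an irreducible factor of `f (R^(n))` over `F`. -/
noncomputable def M (f R : F[X]) (n : ℕ) : ℕ :=
  sSup {d | ∃ g : F[X], Irreducible g ∧ g ∣ f.comp (R.comp^[n] X) ∧ g.natDegree = d}

/-- `α` is not `R`-critical: the number of the distinct `x` with `R^(n)(x) = α` is unbounded. -/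
def NonCritical (R : F[X]) (α : AlgebraicClosure F) : Prop :=
  ¬ BddAbove (Set.range fun n =>
    {x : AlgebraicClosure F | aeval x (R.comp^[n] X) = α}.ncard)

/-- For some `r > 0` and some polynomials `π`, `L` over the closure, `π` not constant, `L - L 0`
additive, one has `R^(r) ∘ π = π ∘ L`. -/
def AdditiveType (R : F[X]) : Prop :=
  ∃ (r : ℕ) (π L : (AlgebraicClosure F)[X]), 0 < r ∧ 0 < π.natDegree ∧
    (∀ x y : AlgebraicClosure F, L.eval (x + y) + L.eval 0 = L.eval x + L.eval y) ∧
    ((R.comp^[r] X).map (algebraMap F (AlgebraicClosure F))).comp π = π.comp L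

/-- For some `r > 0`, `k`, `d` and some polynomial `P` over the closure the function
`π x = P x / x ^ k` is not constant and `R^(r) (π x) = π (x ^ d)` for all `x ≠ 0`. -/
def MultiplicativeType (R : F[X]) : Prop :=
  ∃ (r : ℕ) (P : (AlgebraicClosure F)[X]) (k d : ℕ), 0 < r ∧
    (∃ x y : AlgebraicClosure F, x ≠ 0 ∧ y ≠ 0 ∧ P.eval x / x ^ k ≠ P.eval y / y ^ k) ∧
    ∀ x : AlgebraicClosure F, x ≠ 0 →
      aeval (P.eval x / x ^ k) (R.comp^[r] X) = P.eval (x ^ d) / (x ^ d) ^ k

end

/-- A polynomial which is additive up to the constant is of additive type. -/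
lemma additiveType_of_affine {F : Type} [Field F] (R : F[X])
    (h : ∀ x y : AlgebraicClosure F, aeval (x + y) R + aeval 0 R = aeval x R + aeval y R) :
    AdditiveType R := by
  refine ⟨1, X, R.map (algebraMap F (AlgebraicClosure F)), one_pos, ?_, ?_, ?_⟩
  · rw [natDegree_X]
    exact one_pos
  · intro x y
    simpa only [eval_map_algebraMap] using h x y
  · simp

/-- In characteristic two all polynomials of degree at most two are of additive type. -/
lemma additiveType_quadratic {F : Type} [Field F] [CharP F 2] (R : F[X]) (h : R.natDegree ≤ 2) :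
    AdditiveType R := by
  refine additiveType_of_affine R fun x y => ?_
  have : CharP (AlgebraicClosure F) 2 :=
    charP_of_injective_algebraMap (algebraMap F (AlgebraicClosure F)).injective 2
  have h2 : (2 : AlgebraicClosure F) = 0 := CharTwo.two_eq_zero
  simp only [aeval_eq_sum_range' (Nat.lt_succ_of_le h), Finset.sum_range_succ,
    Finset.sum_range_zero, Algebra.smul_def]
  linear_combination (algebraMap F (AlgebraicClosure F) (R.coeff 2)) * x * y * h2

/-- If `R (x + 1 / x) = x ^ d + 1 / x ^ d`, then `R` is of multiplicative type. -/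
lemma multiplicativeType_dickson {F : Type} [Field F] (R : F[X]) (d : ℕ)
    (h : ∀ x : AlgebraicClosure F, x ≠ 0 → aeval (x + 1 / x) R = x ^ d + 1 / x ^ d) :
    MultiplicativeType R := by
  classical
  refine ⟨1, X ^ 2 + 1, 1, d, one_pos, ?_, fun x hx => ?_⟩
  · by_contra hcon
    push Not at hcon
    have hinf : Set.Infinite (Set.univ : Set (AlgebraicClosure F)) := Set.infinite_univ
    apply hinf
    refine (Set.Finite.union (Set.finite_singleton (0 : AlgebraicClosure F))
      ((X ^ 2 - C (2 : AlgebraicClosure F) * X + 1 :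
        (AlgebraicClosure F)[X]).roots.toFinset.finite_toSet)).subset ?_
    intro x _
    by_cases hx : x = 0
    · exact Or.inl hx
    · right
      have h1 := hcon x 1 hx one_ne_zero
      simp only [eval_add, eval_pow, eval_X, eval_one, pow_one, one_pow, div_one] at h1
      rw [div_eq_iff hx] at h1
      have hne : (X ^ 2 - C (2 : AlgebraicClosure F) * X + 1 : (AlgebraicClosure F)[X]) ≠ 0 := by
        intro h0
        have := congrArg (fun p => p.coeff 0) h0
        simp at this
      rw [Finset.mem_coe, Multiset.mem_toFinset, mem_roots hne, IsRoot]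
      simp only [eval_add, eval_sub, eval_mul, eval_pow, eval_X, eval_one, eval_C]
      linear_combination h1
  · have h1 := h x hx
    simp only [eval_add, eval_pow, eval_X, eval_one, pow_one, Function.iterate_one]
    rw [comp_X]
    have e1 : (x ^ 2 + 1) / x = x + 1 / x := by field_simp
    have e2 : ((x ^ d) ^ 2 + 1) / x ^ d = x ^ d + 1 / x ^ d := by
      have : x ^ d ≠ 0 := pow_ne_zero _ hx
      field_simp
    rw [e1, e2, h1]

theorem result (F : Type) [Field F] [Finite F] (R f : F[X]) (hf : f ≠ 0)
    (hcrit : ∃ α : AlgebraicClosure F, aeval α f = 0 ∧ NonCritical R α) :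
    (AdditiveType R → ∃ c C : ℝ, 0 < c ∧ ∀ᶠ n : ℕ in Filter.atTop,
      c * n ≤ M f R n ∧ (M f R n : ℝ) ≤ C * n) ∧
    (MultiplicativeType R → ∃ c : ℝ, 0 < c ∧ ∀ᶠ n : ℕ in Filter.atTop,
      c * n ≤ Real.log (M f R n)) ∧
    ((∀ x y : AlgebraicClosure F, aeval (x + y) R + aeval 0 R = aeval x R + aeval y R) →
      AdditiveType R) ∧
    (CharP F 2 → R.natDegree ≤ 2 → AdditiveType R) ∧
    ∀ d : ℕ, (∀ x : AlgebraicClosure F, x ≠ 0 → aeval (x + 1 / x) R = x ^ d + 1 / x ^ d) →
      MultiplicativeType R := by
  obtain ⟨α, hα, hα'⟩ := hcrit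
  refine ⟨?_, ?_, additiveType_of_affine R, fun h => ?_, multiplicativeType_dickson R⟩
  · rintro ⟨r, π, L, h1, h2, h3, h4⟩
    exact Pool.Agent.Lib.MP_02170e_nt.DA.Lin23.lin23
      Pool.Agent.Lib.MP_02170e_nt.DA.up58 (Pool.Agent.Lib.MP_02170e_nt.DA.L53.low53
        Pool.Agent.Lib.MP_02170e_nt.DA.inj58) F R f r π L ⟨h1, h2, h3, h4⟩ hf α hα hα'
  · rintro ⟨r, P, k, d, h1, h2, h3⟩
    exact Pool.Agent.Lib.MP_02170e_nt.DA.GM38.gm38 Pool.Agent.Lib.MP_02170e_nt.DA.inj58 F R f r P k d ⟨h1, h2, h3⟩ hf α hα hα'
  · exact additiveType_quadratic R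

end Pool.Agent.Results.MP_02170e_nt.DynamicallyAffine
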