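import Mathlib

set_option autoImplicit false

open Polynomial

namespace Pool.Agent.Results.MP_02170e_nt.RotationInvariant

/-!
# Largest irreducible factors of iterates: exponential growth for a family of polynomials

If `R^(r) = A (B ^ l)` with `B (A 0) = 0`, the `l ^ k`-th roots of the elements of the base are
products of elements of the levels `r (k + 1)` of the tree of iterated preimages, so these levels
generate fields with all roots of unity of order `l ^ k`.
-/

/-- Lifting the exponent. -/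
lemma lte (l q : ℕ) (hl : l.Prime) (hq : 1 < q) (hc : ¬ l ∣ q) :
    ∃ C, ∀ n k, 0 < n → l ^ k ∣ q ^ n - 1 → k ≤ C + padicValNat l n := by
  have : Fact l.Prime := ⟨hl⟩
  have hpos : ∀ n, 0 < n → q ^ n - 1 ≠ 0 := fun n hn => by
    have := Nat.one_lt_pow hn.ne' hq
    omega
  rcases hl.eq_two_or_odd' with rfl | hodd
  · refine ⟨padicValNat 2 (q + 1) + padicValNat 2 (q - 1), fun n k hn hk => ?_⟩
    have h1 : 2 ^ k ∣ q ^ (2 * n) - 1 := by
      refine hk.trans ?_
      have := Nat.sub_dvd_pow_sub_pow (q ^ n) 1 2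
      rw [one_pow, ← pow_mul, mul_comm n 2] at this
      exact this
    have h2 := padicValNat.pow_two_sub_pow (x := q) (y := 1) hq (by omega) (by omega)
      (n := 2 * n) (by omega) ⟨n, by ring⟩
    rw [one_pow] at h2
    have h3 := (padicValNat_dvd_iff_le (hpos (2 * n) (by omega))).mp h1
    have h4 : padicValNat 2 (2 * n) = 1 + padicValNat 2 n := by
      rw [padicValNat.mul (by norm_num) hn.ne']
      simp
    omega
  · refine ⟨padicValNat l (q ^ (l - 1) - 1), fun n k hn hk => ?_⟩
    have h1 : l ^ k ∣ (q ^ (l - 1)) ^ n - 1 ^ n := by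
      refine hk.trans ?_
      have := Nat.sub_dvd_pow_sub_pow (q ^ n) 1 (l - 1)
      rw [one_pow, ← pow_mul, mul_comm n (l - 1), pow_mul] at this
      rw [one_pow]
      exact this
    have hq1 : 1 < q ^ (l - 1) := Nat.one_lt_pow (by have := hl.two_le; omega) hq
    have h0 : l ∣ q ^ (l - 1) - 1 := by
      have h := ZMod.pow_card_sub_one_eq_one (p := l) (a := (q : ZMod l)) (by
        rw [Ne, ZMod.natCast_eq_zero_iff]
        exact hc)
      rw [← Nat.modEq_iff_dvd' hq1.le]
      rw [← ZMod.natCast_eq_natCast_iff]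
      push_cast
      exact h.symm
    have h2 := padicValNat.pow_sub_pow (p := l) (x := q ^ (l - 1)) (y := 1) hodd hq1 h0
      (fun h => hc (hl.dvd_of_dvd_pow h)) (n := n) hn.ne'
    have hne : (q ^ (l - 1)) ^ n - 1 ^ n ≠ 0 := by
      rw [one_pow, ← pow_mul]
      exact hpos _ (Nat.mul_pos (by have := hl.two_le; omega) hn)
    have h3 := (padicValNat_dvd_iff_le hne).mp h1
    omega

section

variable {K : Type*} [Field K] [IsAlgClosed K]

/-- Distribution of a root over the factors of a product. -/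
lemma extract (m : ℕ) (hm : 0 < m) (s : Multiset K) (hs : s ≠ 0) (h0 : ∀ x ∈ s, x ≠ 0) (w : K)
    (hw : w ^ m = s.prod) :
    ∃ t : Multiset K, t.prod = w ∧ t.card = s.card ∧ ∀ x ∈ t, x ^ m ∈ s := by
  choose c hc using fun x : K => IsAlgClosed.exists_pow_nat_eq x hm
  obtain ⟨y, hy⟩ := Multiset.exists_mem_of_ne_zero hs
  obtain ⟨s', rfl⟩ := Multiset.exists_cons_of_mem hy
  have hp : (s'.map c).prod ^ m = s'.prod := by
    rw [← Multiset.prod_map_pow]
    simp only [hc, Multiset.map_id']
  have hne : (s'.map c).prod ≠ 0 := by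
    rw [Ne, Multiset.prod_eq_zero_iff, Multiset.mem_map]
    rintro ⟨a, ha, h⟩
    have := hc a
    rw [h, zero_pow hm.ne'] at this
    exact h0 a (Multiset.mem_cons_of_mem ha) this.symm
  refine ⟨(w / (s'.map c).prod) ::ₘ s'.map c, ?_, ?_, ?_⟩
  · rw [Multiset.prod_cons, div_mul_cancel₀ _ hne]
  · simp
  · intro x hx
    rw [Multiset.mem_cons, Multiset.mem_map] at hx
    rcases hx with rfl | ⟨a, ha, rfl⟩
    · have : (w / (s'.map c).prod) ^ m = y := by
        rw [div_pow, hw, hp, Multiset.prod_cons, mul_div_cancel_right₀]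
        rw [← hp]
        exact pow_ne_zero _ hne
      rw [this]
      exact Multiset.mem_cons_self _ _
    · rw [hc]
      exact Multiset.mem_cons_of_mem ha

/-- Constants. -/
noncomputable def e (Q : K[X]) (l : ℕ) : ℕ → K
  | 0 => 1
  | k + 1 => (e Q l k) ^ (Q.natDegree * l) * ((-1) ^ (Q.natDegree + 1) / Q.leadingCoeff)

omit [IsAlgClosed K] in
lemma e_ne_zero (Q : K[X]) (hQ : Q ≠ 0) (l k : ℕ) : e Q l k ≠ 0 := by
  induction k with
  | zero => simp [e]
  | succ k ih =>
    rw [e]
    refine mul_ne_zero (pow_ne_zero _ ih) (div_ne_zero (pow_ne_zero _ (by simp)) ?_)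
    exact leadingCoeff_ne_zero.mpr hQ

/-- The key lemma: a multiplicative set which contains the fibre of the `k`-th iterate of
`P = Q (x ^ l)` over `β` contains the `l ^ k`-th roots of `e k * β`. -/
lemma key (Q : K[X]) (hQ : 0 < Q.natDegree) (h0 : Q.eval 0 = 0) (l : ℕ) (hl : 0 < l) (k : ℕ) :
    ∀ β : K, β ≠ 0 → ∀ L : Submonoid K, (∀ y, (fun y => Q.eval (y ^ l))^[k] y = β → y ∈ L) →
      ∀ z, z ^ (l ^ k) = e Q l k * β → z ∈ L := by
  induction k with
  | zero =>
    intro β hβ L hL z hz
    rw [pow_zero, pow_one, e, one_mul] at hz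
    exact hL z (by simpa using hz)
  | succ k ih =>
    intro β hβ L hL z hz
    have hQ0 : Q ≠ 0 := by
      rintro rfl
      simp at hQ
    have hek := e_ne_zero Q hQ0 l k
    have hlc : Q.leadingCoeff ≠ 0 := leadingCoeff_ne_zero.mpr hQ0
    set f := Q - C β with hf
    have hfd : f.natDegree = Q.natDegree := natDegree_sub_C
    have hflc : f.leadingCoeff = Q.leadingCoeff := by
      rw [leadingCoeff, hfd, hf, coeff_sub, coeff_C_of_ne_zero hQ.ne', sub_zero, leadingCoeff]
    have hf0 : f ≠ 0 := by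
      intro h
      rw [h] at hfd
      simp at hfd
      omega
    have hsplit : f.Splits := IsAlgClosed.splits f
    have hcard : f.roots.card = Q.natDegree := by
      rw [← hfd]
      exact hsplit.natDegree_eq_card_roots.symm
    have hprod := hsplit.coeff_zero_eq_leadingCoeff_mul_prod_roots
    rw [hfd, hflc, hf, coeff_sub, coeff_C_zero, coeff_zero_eq_eval_zero, h0, zero_sub,
      ← hf] at hprod
    have hprod' : f.roots.prod = (-1) ^ (Q.natDegree + 1) / Q.leadingCoeff * β := by
      rw [div_mul_eq_mul_div, eq_div_iff hlc]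
      have h1 : ((-1 : K) ^ Q.natDegree) * (-1) ^ Q.natDegree = 1 := by
        rw [← mul_pow]; simp
      linear_combination (-(-1 : K) ^ Q.natDegree) * hprod - f.roots.prod * Q.leadingCoeff * h1
    have hmem : ∀ y ∈ f.roots, Q.eval y = β := by
      intro y hy
      have := (mem_roots hf0).mp hy
      rw [IsRoot, hf, eval_sub, eval_C, sub_eq_zero] at this
      exact this
    have hmem0 : ∀ y ∈ f.roots, y ≠ 0 := by
      rintro y hy rfl
      exact hβ ((hmem 0 hy).symm.trans h0)
    have hne : f.roots ≠ 0 := by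
      rw [← Multiset.card_pos, hcard]
      exact hQ
    obtain ⟨t, ht1, ht2, ht3⟩ := extract l hl f.roots hne hmem0
      (z ^ (l ^ k) / (e Q l k) ^ Q.natDegree) (by
        rw [div_pow, ← pow_mul, ← pow_succ, hz, e, hprod', ← pow_mul]
        field_simp)
    have ht0 : ∀ x ∈ t, x ≠ 0 := by
      rintro x hx rfl
      have := hmem0 _ (ht3 0 hx)
      rw [zero_pow hl.ne'] at this
      exact this rfl
    have htne : t.map (fun x => e Q l k * x) ≠ 0 := by
      rw [← Multiset.card_pos, Multiset.card_map, ht2, hcard]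
      exact hQ
    obtain ⟨u, hu1, hu2, hu3⟩ := extract (l ^ k) (pow_pos hl k) (t.map (fun x => e Q l k * x))
      htne (by
        intro x hx
        obtain ⟨a, ha, rfl⟩ := Multiset.mem_map.mp hx
        exact mul_ne_zero hek (ht0 a ha)) z (by
        rw [Multiset.prod_map_mul, Multiset.map_const', Multiset.prod_replicate, Multiset.map_id',
          ht1, ht2, hcard]
        field_simp)
    rw [← hu1]
    refine Submonoid.multiset_prod_mem _ _ fun x hx => ?_
    obtain ⟨a, ha, ha'⟩ := Multiset.mem_map.mp (hu3 x hx)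
    refine ih a (ht0 a ha) L (fun y hy => hL y ?_) x ha'.symm
    rw [Function.iterate_succ_apply', hy]
    exact hmem _ (ht3 a ha)

end

section

variable {F : Type} [Field F] [Finite F]

/-- Elements of the closure are fixed by a power of the Frobenius map. -/
lemma frob_fix (x : AlgebraicClosure F) : x ^ (Nat.card F ^ (minpoly F x).natDegree) = x := by
  have hint : IsIntegral F x := Algebra.IsIntegral.isIntegral x
  have := IntermediateField.adjoin.finiteDimensional hint
  have hfin : Finite (IntermediateField.adjoin F {x}) := Module.finite_of_finite F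
  have := Fintype.ofFinite (IntermediateField.adjoin F {x})
  have hcard : Fintype.card (IntermediateField.adjoin F {x}) =
      Nat.card F ^ (minpoly F x).natDegree := by
    rw [← Nat.card_eq_fintype_card, Module.natCard_eq_pow_finrank (K := F),
      IntermediateField.adjoin.finrank hint]
  have h := FiniteField.pow_card
    (⟨x, IntermediateField.mem_adjoin_simple_self F x⟩ : IntermediateField.adjoin F {x})
  rw [hcard] at h
  exact congrArg Subtype.val h

omit [Finite F] in
lemma fix_mul {x : AlgebraicClosure F} {q a : ℕ} (h : x ^ (q ^ a) = x) (b : ℕ) : x ^ (q ^ (a * b)) = x := by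
  induction b with
  | zero => simp
  | succ b ih => rw [mul_add, mul_one, pow_add, pow_mul, ih, h]

omit [Finite F] in
lemma fix_dvd {x : AlgebraicClosure F} {q a b : ℕ} (h : x ^ (q ^ a) = x) (hab : a ∣ b) : x ^ (q ^ b) = x := by
  obtain ⟨c, rfl⟩ := hab
  exact fix_mul h c

/-- The Frobenius map as a ring homomorphism. -/
lemma exists_frob (E : ℕ) : ∃ φ : (AlgebraicClosure F) →+* (AlgebraicClosure F), ∀ x, φ x = x ^ (Nat.card F ^ E) := by
  have := Fintype.ofFinite F
  obtain ⟨p, hp⟩ := CharP.exists F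
  obtain ⟨n, hpp, hn⟩ := FiniteField.card F p
  have : Fact p.Prime := ⟨hpp⟩
  have : CharP (AlgebraicClosure F) p := charP_of_injective_algebraMap (algebraMap F (AlgebraicClosure F)).injective p
  refine ⟨iterateFrobenius (AlgebraicClosure F) p (n * E), fun x => ?_⟩
  rw [iterateFrobenius_def, Nat.card_eq_fintype_card, hn, ← pow_mul]

lemma fix_eval {E : ℕ} {B : (AlgebraicClosure F)[X]} (hB : ∀ i, (B.coeff i) ^ (Nat.card F ^ E) = B.coeff i) {x : AlgebraicClosure F}
    (hx : x ^ (Nat.card F ^ E) = x) :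
    (B.eval x) ^ (Nat.card F ^ E) = B.eval x := by
  obtain ⟨φ, hφ⟩ := exists_frob (F := F) E
  rw [← hφ] at hx ⊢
  have h1 : B.map φ = B := by
    ext i
    rw [coeff_map, hφ, hB]
  calc φ (B.eval x) = (B.map φ).eval (φ x) := by
        rw [eval_map, eval₂_at_apply]
    _ = B.eval x := by rw [h1, hx]

lemma exists_fix (B : (AlgebraicClosure F)[X]) : ∃ m, 0 < m ∧ ∀ i, (B.coeff i) ^ (Nat.card F ^ m) = B.coeff i := by
  refine ⟨∏ i ∈ B.support, (minpoly F (B.coeff i)).natDegree, ?_, fun i => ?_⟩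
  · exact Finset.prod_pos fun i _ => minpoly.natDegree_pos (Algebra.IsIntegral.isIntegral _)
  · by_cases hi : i ∈ B.support
    · exact fix_dvd (frob_fix _) (Finset.dvd_prod_of_mem _ hi)
    · rw [notMem_support_iff.mp hi, zero_pow]
      exact pow_ne_zero _ Nat.card_pos.ne'


/-- The level `n` of the tree above `α`. -/
def T (R : F[X]) (α : AlgebraicClosure F) (n : ℕ) : Set (AlgebraicClosure F) := {x | aeval x (R.comp^[n] X) = α}

omit [Finite F] in
lemma aeval_iter (R : F[X]) (n : ℕ) (x : AlgebraicClosure F) :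
    aeval x (R.comp^[n] X) = (fun y => aeval y R)^[n] x := by
  induction n with
  | zero => simp
  | succ n ih => rw [Function.iterate_succ_apply', Function.iterate_succ_apply', aeval_comp, ih]

omit [Finite F] in
lemma surj (R : F[X]) (hR : 0 < R.natDegree) (n : ℕ) :
    Function.Surjective (fun y : AlgebraicClosure F => aeval y R)^[n] := by
  refine Function.Surjective.iterate (fun y => ?_) n
  obtain ⟨x, hx⟩ := IsAlgClosed.exists_aeval_eq_zero (AlgebraicClosure F) (R.map (algebraMap F (AlgebraicClosure F)) - C y) (by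
    rw [degree_sub_C]
    · rw [degree_map]
      exact (natDegree_pos_iff_degree_pos.mp hR).ne'
    · rw [degree_map]
      exact natDegree_pos_iff_degree_pos.mp hR)
  refine ⟨x, ?_⟩
  simpa [sub_eq_zero] using hx

lemma frob_iter (R : F[X]) (E n : ℕ) {x : AlgebraicClosure F} (hx : x ^ (Nat.card F ^ E) = x) :
    ((fun y : AlgebraicClosure F => aeval y R)^[n] x) ^ (Nat.card F ^ E) = (fun y : AlgebraicClosure F => aeval y R)^[n] x := by
  induction n with
  | zero => exact hx
  | succ n ih =>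
    rw [Function.iterate_succ_apply']
    have h1 := fix_eval (F := F) (E := E) (B := R.map (algebraMap F (AlgebraicClosure F))) (fun i => by
      rw [coeff_map, ← map_pow]
      congr 1
      have := Fintype.ofFinite F
      rw [Nat.card_eq_fintype_card]
      exact FiniteField.pow_card_pow E _) ih
    rw [eval_map_algebraMap] at h1
    exact h1

/-- The core argument. -/
lemma core (R : F[X]) (hR : 0 < R.natDegree) (l r : ℕ) (hl : l.Prime) (hF : (l : F) ≠ 0)
    (A B : (AlgebraicClosure F)[X]) (hA : 0 < A.natDegree) (hB : 0 < B.natDegree)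
    (hAB : (R.comp^[r] X).map (algebraMap F (AlgebraicClosure F)) = A.comp (B ^ l))
    (h0 : B.eval (A.eval 0) = 0) (α α' : AlgebraicClosure F) (j : ℕ) (hj : α' ∈ T R α j) (hα' : α' ≠ A.eval 0)
    (m : ℕ) (hm : ∀ i, (B.coeff i) ^ (Nat.card F ^ m) = B.coeff i)
    (E n k : ℕ) (hE : ∀ x ∈ T R α n, x ^ (Nat.card F ^ E) = x) (hn : j + r * (k + 1) ≤ n) :
    l ^ k ∣ Nat.card F ^ (E * m) - 1 := by
  classical
  have hlK : (l : AlgebraicClosure F) ≠ 0 := by
    have h1 := (algebraMap F (AlgebraicClosure F)).injective.ne hF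
    simpa using h1
  -- a point `β`
  obtain ⟨Y, hY⟩ : ∃ Y : AlgebraicClosure F, A.eval Y = α' := by
    obtain ⟨x, hx⟩ := IsAlgClosed.exists_root (A - C α') (by
      rw [degree_sub_C (natDegree_pos_iff_degree_pos.mp hA)]
      exact (natDegree_pos_iff_degree_pos.mp hA).ne')
    refine ⟨x, ?_⟩
    simpa [sub_eq_zero] using hx
  obtain ⟨β, hβ⟩ := IsAlgClosed.exists_pow_nat_eq Y hl.pos
  have hY0 : Y ≠ 0 := by
    rintro rfl
    exact hα' hY.symm
  have hβ0 : β ≠ 0 := by
    rintro rfl
    rw [zero_pow hl.ne_zero] at hβ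
    exact hY0 hβ.symm
  set ρ : (AlgebraicClosure F) → (AlgebraicClosure F) := fun y => aeval y R with hρ
  have hρr : ∀ x, ρ^[r] x = A.eval ((B.eval x) ^ l) := by
    intro x
    rw [hρ, ← aeval_iter, ← eval_map_algebraMap, hAB, eval_comp, eval_pow]
  let Q : (AlgebraicClosure F)[X] := B.comp A
  have hQ : 0 < Q.natDegree := by
    rw [natDegree_comp]
    exact Nat.mul_pos hB hA
  have hQ0 : Q.eval 0 = 0 := by rw [eval_comp, h0]
  set π : (AlgebraicClosure F) → (AlgebraicClosure F) := fun y => Q.eval (y ^ l) with hπ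
  have hsemi : ∀ x i, B.eval ((ρ^[r])^[i] x) = π^[i] (B.eval x) := by
    intro x i
    induction i with
    | zero => rfl
    | succ i ih =>
      rw [Function.iterate_succ_apply', Function.iterate_succ_apply', hρr, ← ih, hπ]
      simp only [Q, eval_comp]
  let L : Submonoid (AlgebraicClosure F) :=
    { carrier := {y | y ^ (Nat.card F ^ (E * m)) = y}
      mul_mem' := fun {a b} ha hb => by
        simp only [Set.mem_ofPred_eq] at *
        rw [mul_pow, ha, hb]
      one_mem' := by simp }
  have hL : ∀ y, π^[k] y = β → y ∈ L := by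
    intro y hy
    obtain ⟨x, hx⟩ : ∃ x : AlgebraicClosure F, B.eval x = y := by
      obtain ⟨x, hx⟩ := IsAlgClosed.exists_root (B - C y) (by
        rw [degree_sub_C (natDegree_pos_iff_degree_pos.mp hB)]
        exact (natDegree_pos_iff_degree_pos.mp hB).ne')
      refine ⟨x, ?_⟩
      simpa [sub_eq_zero] using hx
    have h1 : ρ^[r * (k + 1)] x = α' := by
      rw [Function.iterate_mul, Function.iterate_succ_apply', hρr, hsemi, hx, hy, hβ, hY]
    have h2 : ρ^[j + r * (k + 1)] x = α := by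
      rw [Function.iterate_add_apply, h1]
      have h3 := hj
      rw [T, Set.mem_ofPred_eq, aeval_iter] at h3
      exact h3
    obtain ⟨z, hz⟩ := surj R hR (n - (j + r * (k + 1))) x
    have h3 : z ∈ T R α n := by
      rw [T, Set.mem_ofPred_eq, aeval_iter]
      have h4 : n = (j + r * (k + 1)) + (n - (j + r * (k + 1))) := by omega
      rw [h4, Function.iterate_add_apply, hz]
      exact h2
    have h4 := frob_iter R E (n - (j + r * (k + 1))) (hE z h3)
    rw [hz] at h4
    have h5 : x ^ (Nat.card F ^ (E * m)) = x := fix_mul h4 m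
    have h6 : ∀ i, (B.coeff i) ^ (Nat.card F ^ (E * m)) = B.coeff i := fun i =>
      fix_dvd (hm i) (dvd_mul_left m E)
    have h7 := fix_eval h6 h5
    rw [hx] at h7
    exact h7
  have hkey := key Q hQ hQ0 l hl.pos k β hβ0 L hL
  have hQne : Q ≠ 0 := by
    intro h
    rw [h] at hQ
    simp at hQ
  obtain ⟨z, hz⟩ := IsAlgClosed.exists_pow_nat_eq (e Q l k * β) (pow_pos hl.pos k)
  have hz0 : z ≠ 0 := by
    rintro rfl
    rw [zero_pow (pow_pos hl.pos k).ne'] at hz
    exact mul_ne_zero (e_ne_zero Q hQne l k) hβ0 hz.symm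
  have : NeZero ((l ^ k : ℕ) : AlgebraicClosure F) := ⟨by push_cast; exact pow_ne_zero _ hlK⟩
  obtain ⟨ζ, hζ⟩ := HasEnoughRootsOfUnity.exists_primitiveRoot (AlgebraicClosure F) (l ^ k)
  have h1 : z ^ (Nat.card F ^ (E * m)) = z := hkey z hz
  have h2 : (ζ * z) ^ (Nat.card F ^ (E * m)) = ζ * z :=
    hkey (ζ * z) (by rw [mul_pow, hζ.pow_eq_one, one_mul, hz])
  rw [mul_pow, h1] at h2
  have h3 : ζ ^ (Nat.card F ^ (E * m)) = ζ := mul_right_cancel₀ hz0 h2
  have h4 : ζ ^ (Nat.card F ^ (E * m) - 1) = 1 := by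
    have hζ0 : ζ ≠ 0 := hζ.ne_zero (pow_pos hl.pos k).ne'
    have h5 : 0 < Nat.card F ^ (E * m) := pow_pos Nat.card_pos _
    have h6 : ζ ^ (Nat.card F ^ (E * m) - 1) * ζ = 1 * ζ := by
      rw [← pow_succ, Nat.sub_add_cancel h5, h3, one_mul]
    exact mul_right_cancel₀ hζ0 h6
  exact hζ.dvd_of_pow_eq_one _ h4


omit [Finite F] in
/-- Nonempty levels. -/
lemma T_nonempty (R : F[X]) (hR : 0 < R.natDegree) (α : AlgebraicClosure F) (n : ℕ) : (T R α n).Nonempty := by
  obtain ⟨x, hx⟩ := surj R hR n α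
  exact ⟨x, by rw [T, Set.mem_ofPred_eq, aeval_iter]; exact hx⟩

omit [Finite F] in
lemma T_finite (R : F[X]) (hR : 0 < R.natDegree) (α : AlgebraicClosure F) (n : ℕ) : (T R α n).Finite := by
  classical
  set P : (AlgebraicClosure F)[X] := (R.comp^[n] X).map (algebraMap F (AlgebraicClosure F)) - C α with hP
  have hdeg : 0 < (R.comp^[n] X : F[X]).natDegree := by
    rw [natDegree_iterate_comp, natDegree_X, mul_one]
    exact pow_pos hR n
  have hP0 : P ≠ 0 := by
    intro h
    have h1 : P.natDegree = (R.comp^[n] X : F[X]).natDegree := by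
      rw [hP, natDegree_sub_C, natDegree_map]
    rw [h, natDegree_zero] at h1
    omega
  refine (P.roots.toFinset.finite_toSet).subset fun x hx => ?_
  rw [T, Set.mem_ofPred_eq] at hx
  rw [Finset.mem_coe, Multiset.mem_toFinset, mem_roots hP0, IsRoot, hP, eval_sub, eval_C,
    eval_map_algebraMap, hx, sub_self]

/-- The degrees in the level `n`. -/
lemma degrees (R : F[X]) (hR : 0 < R.natDegree) (l r : ℕ) (hl : l.Prime) (hF : (l : F) ≠ 0)
    (A B : (AlgebraicClosure F)[X]) (hA : 0 < A.natDegree) (hB : 0 < B.natDegree)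
    (hAB : (R.comp^[r] X).map (algebraMap F (AlgebraicClosure F)) = A.comp (B ^ l))
    (h0 : B.eval (A.eval 0) = 0) (α α' : AlgebraicClosure F) (j : ℕ) (hj : α' ∈ T R α j) (hα' : α' ≠ A.eval 0) :
    ∃ D : ℕ, ∀ k n, j + r * (k + 1) ≤ n →
      ∃ x ∈ T R α n, l ^ (k - D) ≤ (minpoly F x).natDegree := by
  classical
  obtain ⟨m, hm0, hm⟩ := exists_fix B
  have hq : 1 < Nat.card F := by
    have := Fintype.ofFinite F
    rw [Nat.card_eq_fintype_card]
    exact Fintype.one_lt_card
  have hlq : ¬ l ∣ Nat.card F := by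
    intro h
    have := Fintype.ofFinite F
    obtain ⟨p, hp⟩ := CharP.exists F
    obtain ⟨n, hpp, hn⟩ := FiniteField.card F p
    rw [Nat.card_eq_fintype_card, hn] at h
    have h1 := (Nat.prime_dvd_prime_iff_eq hl hpp).mp (hl.dvd_of_dvd_pow h)
    rw [h1] at hF
    exact hF (CharP.cast_eq_zero F p)
  obtain ⟨C, hC⟩ := lte l (Nat.card F) hl hq hlq
  refine ⟨C + padicValNat l m, fun k n hn => ?_⟩
  have hint : ∀ x : AlgebraicClosure F, IsIntegral F x := fun x => Algebra.IsIntegral.isIntegral x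
  by_cases hk : k ≤ C + padicValNat l m
  · obtain ⟨x, hx⟩ := T_nonempty R hR α n
    refine ⟨x, hx, ?_⟩
    rw [Nat.sub_eq_zero_of_le hk, pow_zero]
    exact minpoly.natDegree_pos (hint x)
  push Not at hk
  set c := k - (C + padicValNat l m) - 1 with hc
  have hc1 : k - (C + padicValNat l m) = c + 1 := by omega
  by_contra hcon
  push Not at hcon
  rw [hc1] at hcon
  have hfin := T_finite R hR α n
  have hdeg0 : ∀ x : AlgebraicClosure F, (minpoly F x).natDegree ≠ 0 := fun x => (minpoly.natDegree_pos (hint x)).ne'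
  let E : ℕ := l ^ c * ∏ x ∈ hfin.toFinset, ordCompl[l] (minpoly F x).natDegree
  have hE : ∀ x ∈ T R α n, x ^ (Nat.card F ^ E) = x := by
    intro x hx
    refine fix_dvd (frob_fix x) ?_
    have h1 : ordProj[l] (minpoly F x).natDegree ∣ l ^ c := by
      refine Nat.pow_dvd_pow l ?_
      by_contra h2
      push Not at h2
      have h3 : l ^ (c + 1) ∣ (minpoly F x).natDegree :=
        (Nat.pow_dvd_pow l h2).trans (Nat.ordProj_dvd _ _)
      exact absurd (Nat.le_of_dvd (minpoly.natDegree_pos (hint x)) h3) (not_le.mpr (hcon x hx))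
    have h2 : ordCompl[l] (minpoly F x).natDegree ∣
        ∏ x ∈ hfin.toFinset, ordCompl[l] (minpoly F x).natDegree :=
      Finset.dvd_prod_of_mem _ (hfin.mem_toFinset.mpr hx)
    have h3 := mul_dvd_mul h1 h2
    rwa [Nat.ordProj_mul_ordCompl_eq_self] at h3
  have hcore := core R hR l r hl hF A B hA hB hAB h0 α α' j hj hα' m hm E n k hE hn
  have hprod0 : (∏ x ∈ hfin.toFinset, ordCompl[l] (minpoly F x).natDegree) ≠ 0 :=
    Finset.prod_ne_zero_iff.mpr fun x _ => (Nat.ordCompl_pos l (hdeg0 x)).ne'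
  have hE0 : E ≠ 0 := mul_ne_zero (pow_ne_zero _ hl.ne_zero) hprod0
  have h1 := hC (E * m) k (Nat.mul_pos (Nat.pos_of_ne_zero hE0) hm0) hcore
  have : Fact l.Prime := ⟨hl⟩
  have h2 : padicValNat l (E * m) = c + padicValNat l m := by
    rw [padicValNat.mul hE0 hm0.ne', padicValNat.mul (pow_ne_zero _ hl.ne_zero) hprod0,
      padicValNat.prime_pow]
    have h3 : padicValNat l (∏ x ∈ hfin.toFinset, ordCompl[l] (minpoly F x).natDegree) = 0 := by
      apply padicValNat.eq_zero_of_not_dvd
      rw [hl.prime.dvd_finsetProd_iff]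
      rintro ⟨x, -, hx⟩
      exact Nat.not_dvd_ordCompl hl (hdeg0 x) hx
    rw [h3, add_zero]
  omega


omit [Finite F] in
lemma natDegree_pos (R : F[X]) (l r : ℕ) (hl : l.Prime) (hr : 0 < r)
    (A B : (AlgebraicClosure F)[X]) (hA : 0 < A.natDegree) (hB : 0 < B.natDegree)
    (hAB : (R.comp^[r] X).map (algebraMap F (AlgebraicClosure F)) = A.comp (B ^ l)) : 0 < R.natDegree := by
  have h1 := congrArg natDegree hAB
  rw [natDegree_map, natDegree_iterate_comp, natDegree_X, mul_one, natDegree_comp,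
    natDegree_pow] at h1
  rcases Nat.eq_zero_or_pos R.natDegree with h | h
  · rw [h, zero_pow hr.ne'] at h1
    exact absurd h1 (Nat.mul_pos hA (Nat.mul_pos hl.pos hB)).ne
  · exact h

omit [Finite F] in
lemma exists_node (R : F[X]) (A : (AlgebraicClosure F)[X]) (α : AlgebraicClosure F)
    (h : ¬ BddAbove (Set.range fun n => {x : AlgebraicClosure F | aeval x (R.comp^[n] X) = α}.ncard)) :
    ∃ j, ∃ α' ∈ T R α j, α' ≠ A.eval 0 := by
  by_contra hcon
  push Not at hcon
  apply h
  refine ⟨1, ?_⟩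
  rintro _ ⟨n, rfl⟩
  have h1 : {x : AlgebraicClosure F | aeval x (R.comp^[n] X) = α} ⊆ {A.eval 0} := fun x hx => hcon n x hx
  calc _ ≤ ({A.eval 0} : Set (AlgebraicClosure F)).ncard := Set.ncard_le_ncard h1
    _ = 1 := Set.ncard_singleton _

/-- `M_{f,R}(n)`: the largest degree of an irreducible factor of `f (R^(n))`, where `R^(n)` is the
`n`-th iterate of the polynomial `R`. -/
noncomputable def M (f R : F[X]) (n : ℕ) : ℕ :=
  sSup {d | ∃ g : F[X], Irreducible g ∧ g ∣ f.comp (R.comp^[n] X) ∧ g.natDegree = d}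

omit [Finite F] in
lemma le_M (f R : F[X]) (hf : f ≠ 0) (hR : 0 < R.natDegree) (α : AlgebraicClosure F) (hα : aeval α f = 0) (n : ℕ)
    {x : AlgebraicClosure F} (hx : x ∈ T R α n) : (minpoly F x).natDegree ≤ M f R n := by
  have hint : IsIntegral F x := Algebra.IsIntegral.isIntegral x
  have hne : f.comp (R.comp^[n] X) ≠ 0 := by
    rw [Ne, comp_eq_zero_iff]
    rintro (h | ⟨-, h⟩)
    · exact hf h
    · have h1 : (R.comp^[n] X : F[X]).natDegree = 0 := by
        rw [h]
        exact natDegree_C _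
      rw [natDegree_iterate_comp, natDegree_X, mul_one] at h1
      exact absurd h1 (pow_pos hR n).ne'
  refine le_csSup ⟨(f.comp (R.comp^[n] X)).natDegree, ?_⟩ ?_
  · rintro _ ⟨g, -, hg, rfl⟩
    exact natDegree_le_of_dvd hg hne
  · refine ⟨minpoly F x, minpoly.irreducible hint, minpoly.dvd F x ?_, rfl⟩
    rw [aeval_comp]
    rw [T, Set.mem_ofPred_eq] at hx
    rw [hx, hα]

/-- The growth. -/
theorem growth (R f : F[X]) (hf : f ≠ 0) (l r : ℕ) (hl : l.Prime) (hF : (l : F) ≠ 0)
    (hr : 0 < r) (A B : (AlgebraicClosure F)[X]) (hA : 0 < A.natDegree) (hB : 0 < B.natDegree)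
    (hAB : (R.comp^[r] X).map (algebraMap F (AlgebraicClosure F)) = A.comp (B ^ l))
    (h0 : B.eval (A.eval 0) = 0) (α : AlgebraicClosure F) (hα : aeval α f = 0)
    (hcrit : ¬ BddAbove (Set.range fun n => {x : AlgebraicClosure F | aeval x (R.comp^[n] X) = α}.ncard)) :
    (∃ C : ℝ, 0 < C ∧ ∀ n : ℕ, C * (l : ℝ) ^ ((n : ℝ) / r) ≤ M f R n) ∧
      ∃ c : ℝ, 0 < c ∧ ∀ᶠ n : ℕ in Filter.atTop, c * n ≤ Real.log (M f R n) := by
  have hR := natDegree_pos R l r hl hr A B hA hB hAB
  obtain ⟨j, α', hj, hα'⟩ := exists_node R A α hcrit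
  obtain ⟨D, hD⟩ := degrees R hR l r hl hF A B hA hB hAB h0 α α' j hj hα'
  have hl1 : (1 : ℝ) < l := by exact_mod_cast hl.one_lt
  have hl0 : (0 : ℝ) < l := by linarith
  have hrR : (0 : ℝ) < r := by exact_mod_cast hr
  have hr1 : (1 : ℝ) ≤ r := by exact_mod_cast hr
  have hint : ∀ x : AlgebraicClosure F, IsIntegral F x := fun x => Algebra.IsIntegral.isIntegral x
  have main : ∀ n : ℕ, (l : ℝ) ^ (-((D : ℝ) + j + 2)) * (l : ℝ) ^ ((n : ℝ) / r) ≤ M f R n := by
    intro n
    rw [← Real.rpow_add hl0]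
    by_cases hn : j + r ≤ n
    · -- the index
      set k := (n - j) / r - 1 with hk
      have h1 : 1 ≤ (n - j) / r := (Nat.one_le_div_iff hr).mpr (by omega)
      have hk1 : k + 1 = (n - j) / r := by omega
      have h2 : r * ((n - j) / r) ≤ n - j := Nat.mul_div_le _ _
      have h3 : n - j < r * ((n - j) / r + 1) := Nat.lt_mul_div_succ _ hr
      obtain ⟨x, hx, hxd⟩ := hD k n (by rw [hk1]; omega)
      have h4 := hxd.trans (le_M f R hf hR α hα n hx)
      have h5 : (n : ℝ) / r ≤ j + k + 2 := by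
        rw [div_le_iff₀ hrR]
        have h6 : n < j + r * (k + 2) := by
          have : k + 2 = (n - j) / r + 1 := by omega
          rw [this]
          omega
        have h7 : (n : ℝ) < j + r * (k + 2) := by exact_mod_cast h6
        have h8 : (j : ℝ) ≤ j * r := le_mul_of_one_le_right (Nat.cast_nonneg j) hr1
        nlinarith
      calc (l : ℝ) ^ (-((D : ℝ) + j + 2) + (n : ℝ) / r) ≤ (l : ℝ) ^ ((k : ℝ) - D) :=
            Real.rpow_le_rpow_of_exponent_le hl1.le (by linarith)
        _ ≤ (l : ℝ) ^ (((k - D : ℕ) : ℝ)) := by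
            refine Real.rpow_le_rpow_of_exponent_le hl1.le ?_
            rcases le_total D k with h | h
            · rw [Nat.cast_sub h]
            · rw [Nat.sub_eq_zero_of_le h, Nat.cast_zero]
              have : (k : ℝ) ≤ D := by exact_mod_cast h
              linarith
        _ = ((l ^ (k - D) : ℕ) : ℝ) := by rw [Real.rpow_natCast]; push_cast; rfl
        _ ≤ M f R n := by exact_mod_cast h4
    · obtain ⟨x, hx⟩ := T_nonempty R hR α n
      have h4 : 1 ≤ M f R n := (minpoly.natDegree_pos (hint x)).trans_le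
        (le_M f R hf hR α hα n hx)
      have h5 : (n : ℝ) / r ≤ j + 1 := by
        rw [div_le_iff₀ hrR]
        have h6 : (n : ℝ) < j + r := by exact_mod_cast not_le.mp hn
        have h8 : (j : ℝ) ≤ j * r := le_mul_of_one_le_right (Nat.cast_nonneg j) hr1
        linarith
      calc (l : ℝ) ^ (-((D : ℝ) + j + 2) + (n : ℝ) / r) ≤ (l : ℝ) ^ (0 : ℝ) := by
            refine Real.rpow_le_rpow_of_exponent_le hl1.le ?_
            have : (0 : ℝ) ≤ D := Nat.cast_nonneg D
            linarith
        _ = 1 := Real.rpow_zero _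
        _ ≤ M f R n := by exact_mod_cast h4
  set C : ℝ := (l : ℝ) ^ (-((D : ℝ) + j + 2)) with hC
  have hC0 : 0 < C := Real.rpow_pos_of_pos hl0 _
  refine ⟨⟨C, hC0, main⟩, Real.log l / (2 * r), div_pos (Real.log_pos hl1) (by positivity), ?_⟩
  have hlog : 0 < Real.log l := Real.log_pos hl1
  obtain ⟨N, hN⟩ := exists_nat_ge (2 * r * (-Real.log C) / Real.log l)
  filter_upwards [Filter.eventually_ge_atTop N] with n hn
  have h1 : 0 < C * (l : ℝ) ^ ((n : ℝ) / r) := mul_pos hC0 (Real.rpow_pos_of_pos hl0 _)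
  have h2 := Real.log_le_log h1 (main n)
  rw [Real.log_mul hC0.ne' (Real.rpow_pos_of_pos hl0 _).ne',
    Real.log_rpow hl0 ((n : ℝ) / r)] at h2
  have h3 : 2 * r * (-Real.log C) / Real.log l ≤ n := hN.trans (by exact_mod_cast hn)
  rw [div_le_iff₀ hlog] at h3
  refine le_trans ?_ h2
  have h4 : Real.log l / (2 * r) * n = (n * Real.log l) / (2 * r) := by ring
  have h5 : Real.log C + (n : ℝ) / r * Real.log l =
      (2 * r * Real.log C + 2 * (n * Real.log l)) / (2 * r) := by
    field_simp
  rw [h4, h5]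
  refine div_le_div_of_nonneg_right ?_ (by positivity)
  linarith

end

/-- If some iterate of the polynomial `R` is `A (B ^ l)` for a prime `l` different from the
characteristic and nonconstant polynomials `A`, `B` over the algebraic closure with
`B (A 0) = 0`, then `M_{f,R}(n) ≥ C l ^ (n / r)` for every `f` with a root which is not
`R`-critical. -/
theorem result (F : Type) [Field F] [Finite F] (R f : F[X]) (l r : ℕ) (hl : l.Prime)
    (hF : (l : F) ≠ 0) (hr : 0 < r) (A B : (AlgebraicClosure F)[X]) (hA : 0 < A.natDegree)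
    (hB : 0 < B.natDegree)
    (hAB : (R.comp^[r] X).map (algebraMap F (AlgebraicClosure F)) = A.comp (B ^ l))
    (h0 : B.eval (A.eval 0) = 0) (hf : f ≠ 0)
    (hcrit : ∃ α : AlgebraicClosure F, aeval α f = 0 ∧
      ¬ BddAbove (Set.range fun n => {x : AlgebraicClosure F | aeval x (R.comp^[n] X) = α}.ncard)) :
    (∃ C : ℝ, 0 < C ∧ ∀ n : ℕ, C * (l : ℝ) ^ ((n : ℝ) / r) ≤ M f R n) ∧
      ∃ c : ℝ, 0 < c ∧ ∀ᶠ n : ℕ in Filter.atTop, c * n ≤ Real.log (M f R n) := by
  obtain ⟨α, hα, hα'⟩ := hcrit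
  exact growth R f hf l r hl hF hr A B hA hB hAB h0 α hα hα'

end Pool.Agent.Results.MP_02170e_nt.RotationInvariant
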